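import Mathlib
import Pool.Agent.H25.MatPow2

namespace Pool.Agent.Results.MP_0bd9b3_al.PowerSums

open Finset Matrix Pool.Agent.H25.MatPow1 Pool.Agent.H25.MatPow2

/-- `mpow A k = A ^ k` for `k ≥ 1`, in a matrix ring without identity. -/
def mpow {R : Type} [NonUnitalRing R] {d : ℕ} (A : Matrix (Fin d) (Fin d) R) :
    ℕ → Matrix (Fin d) (Fin d) R
  | 0 => 0
  | 1 => A
  | k + 2 => mpow A (k + 1) * A

/-- The sum of the `k`-th powers of all `d × d` matrices over `R`. -/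
def S (k d : ℕ) (R : Type) [NonUnitalRing R] [Fintype R] : Matrix (Fin d) (Fin d) R :=
  ∑ A : Matrix (Fin d) (Fin d) R, mpow A k

/-- Conditions 1-3 of the question. -/
def Cond (k d : ℕ) (R : Type) [NonUnitalRing R] [Fintype R] : Prop :=
  d = 2 ∧ (Fintype.card R % 4 = 2 ∧ 1 < k ∧ (k % 6 = 5 ∨ k % 6 = 0 ∨ k % 6 = 1)) ∧
    ∀ e : R, e ≠ 0 → 2 • e = 0 → e * e = e

variable {R : Type} [NonUnitalRing R] [Fintype R]

lemma S_eq (k d : ℕ) : S (k + 1) d R = T d R k := by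
  refine sum_congr rfl (fun A _ => ?_)
  induction k with
  | zero => rfl
  | succ k ih => rw [mpow, ih, npw]

omit [Fintype R] in
lemma W0 (τ δ : R) (k : ℕ) : W τ δ 0 0 k = 0 := by
  induction k using Nat.twoStepInduction with
  | zero => rfl
  | one => rfl
  | more k i1 i2 => simp [W, i1, i2]

lemma exc (hR : ∀ r : R, 2 • r = 0) (e : R) (e0 : e ≠ 0) (ee : e * e = e) (h : ∀ r : R, r = 0 ∨ r = e)
    (k : ℕ) : T 2 R k 0 0 = if 0 < k ∧ (k % 6 = 4 ∨ k % 6 = 5 ∨ k % 6 = 0) then e else 0 := by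
  classical
  have aa : e + e = 0 := by rw [← two_nsmul, hR]
  have hn : ∀ r : R, r * r = 0 → r = 0 := fun r hr => (h r).elim id (fun a => by rwa [a, ee, ← a] at hr)
  let _ : NonUnitalCommRing R := { ‹NonUnitalRing R› with mul_comm := comm_red R hR hn }
  have u : (univ : Finset R) = {0, e} := by ext r; simpa using h r
  have w1 : ∀ k, W 0 0 e 0 k = if k = 0 then e else 0 := fun k => by
    induction k using Nat.twoStepInduction <;> simp [W]
  have w2 : ∀ k, W e 0 e e k = e := fun k => by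
    induction k using Nat.twoStepInduction <;> simp [W, *]
  have w3 : ∀ k, W 0 e e 0 k = if k % 2 = 0 then e else 0 := fun k => by
    induction k using Nat.twoStepInduction with
    | zero => rfl
    | one => rfl
    | more k i1 i2 => rw [W, i1, Nat.add_mod_right, zero_mul, zero_add]; split_ifs <;> simp [ee]
  have w4 : ∀ k, W e e e e k = if k % 3 = 2 then 0 else e := fun k => by
    induction k using Nat.twoStepInduction with
    | zero => rfl
    | one => rfl
    | more k i1 i2 => rw [W, i1, i2]; split_ifs <;> first | omega | simp [ee, aa]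
  refine (red hR e e0 hn k).trans ?_
  rw [u]
  simp only [sum_pair e0.symm, zero_add, zero_mul]
  refine Eq.trans (b := W 0 0 e 0 k + W 0 e e 0 k + (W e 0 e e k + W e e e e k)) (by
    rw [show @HMul.hMul R R R _ e e = e from ee]) ?_
  rw [w1, w2, w3, w4]
  split_ifs <;> first | omega | simp [aa]

lemma expp {p : ℕ} (hp : p.Prime) (hR : ∀ r : R, p • r = 0) (d k : ℕ) :
    T (d + 2) R k 0 0 = 0 ∨ (p = 2 ∧ d = 0 ∧ ∃ e : R, e ≠ 0 ∧ e * e = e ∧ ∀ r : R, r = 0 ∨ r = e) := by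
  classical
  by_cases h0 : ∀ r : R, r = 0
  · exact Or.inl (h0 _)
  push Not at h0
  obtain ⟨r, hr⟩ := h0
  rcases d with _ | d
  swap
  · exact Or.inl (big hp hR r hr k)
  by_cases h2 : p = 2
  swap
  · exact Or.inl (oddp hp h2 hR r hr k)
  subst h2
  by_cases hn : ∀ r : R, r * r = 0 → r = 0
  swap
  · push Not at hn
    obtain ⟨n, n1, n2⟩ := hn
    exact Or.inl (nil hR n n2 n1 k)
  by_cases h : ∀ s : R, s = 0 ∨ s = r
  · exact Or.inr ⟨rfl, rfl, r, hr, (h _).resolve_left (fun a => hr (hn r a)), h⟩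
  push Not at h
  obtain ⟨s, s1, s2⟩ := h
  let _ : NonUnitalCommRing R := { ‹NonUnitalRing R› with mul_comm := comm_red R hR hn }
  refine Or.inl ((red hR r hr hn k).trans ?_)
  rw [sum_all hR s r s1 hr s2]
  simp only [mul_zero]
  exact sum_eq_zero (fun τ _ => sum_eq_zero (fun δ _ => W0 τ δ k))

omit [Fintype R] in
lemma lin {d : ℕ} (m : ℕ) (hm : ∀ r : R, (m * m) • r = 0) (A : M d R) (k : ℕ) :
    ∃ D : M d R →+ M d R, ∀ B, npw (A + m • B) k = npw A k + D (m • B) := by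
  induction k with
  | zero => exact ⟨AddMonoidHom.id _, fun _ => rfl⟩
  | succ k ih =>
    obtain ⟨D, hD⟩ := ih
    refine ⟨(AddMonoidHom.mulRight A).comp D + AddMonoidHom.mulLeft (npw A k), fun B => ?_⟩
    have z : D (m • B) * (m • B) = 0 := by
      rw [map_nsmul, smul_mul_smul_comm]; ext; simp [hm]
    rw [npw, npw, hD, add_mul, mul_add, mul_add, z]
    simp only [AddMonoidHom.add_apply, AddMonoidHom.comp_apply, AddMonoidHom.mulRight_apply,
      AddMonoidHom.coe_mulLeft]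
    abel

lemma cardM (d : ℕ) (X : Type) [Fintype X] : Fintype.card (M d X) = (Fintype.card X ^ d) ^ d := by
  rw [Fintype.card_congr Matrix.of.symm]; simp

lemma caseB {p s n : ℕ} (hp : p.Prime) (h1 : ∀ r : R, (p ^ (s + 2) * n) • r = 0) (r0 : R)
    (h2 : (p ^ (s + 1) * n) • r0 ≠ 0) (d k : ℕ) : n • T (d + 2) R k = 0 := by
  classical
  have := Fact.mk hp
  obtain ⟨t, ht⟩ : ∃ t, t = s / 2 := ⟨_, rfl⟩
  obtain ⟨m, hm⟩ : ∃ m, m = p ^ (s + 1 - t) * n := ⟨_, rfl⟩
  have dv : ∀ c, p ^ (s + 2) * n ∣ c → ∀ r : R, c • r = 0 := by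
    rintro _ ⟨c, rfl⟩ r; rw [mul_nsmul', h1]
  have mm := dv (m * m) (by
    rw [hm, mul_mul_mul_comm, ← pow_add]
    exact mul_dvd_mul (pow_dvd_pow _ (by omega)) (dvd_mul_left _ _))
  let I : AddSubgroup R := (nsmulAddMonoidHom m).range
  have c1 : p ^ (t + 1) ∣ Fintype.card I := by
    rw [← addOrderOf_eq_prime_pow (x := (⟨m • r0, r0, rfl⟩ : I)) (fun h => h2 (by
      have := congrArg Subtype.val h
      simp only [AddSubgroup.coe_nsmul, smul_smul, hm, ← mul_assoc, ← pow_add] at this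
      rwa [show t + (s + 1 - t) = s + 1 by omega] at this)) (Subtype.ext (by
      simp only [AddSubgroup.coe_nsmul, smul_smul, hm, ← mul_assoc, ← pow_add]
      rw [show t + 1 + (s + 1 - t) = s + 2 by omega]; exact h1 _))]
    exact addOrderOf_dvd_card
  rw [T, smul_sum]
  refine coset (H := M (d + 2) I) (AddMonoidHom.mapMatrix I.subtype) (fun A B h => by
    ext a b; exact congrFun (congrFun h a) b) _ (fun A => ?_)
  obtain ⟨D, hD⟩ := lin m mm A k
  have e1 : ∀ N : M (d + 2) I, npw (A + AddMonoidHom.mapMatrix I.subtype N) k =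
      npw A k + D (AddMonoidHom.mapMatrix I.subtype N) := fun N => by
    choose B hB using fun a b => (N a b).2
    have : AddMonoidHom.mapMatrix I.subtype N = m • Matrix.of B := by ext a b; exact (hB a b).symm
    rw [this, hD]
  have e2 : ∑ N : M (d + 2) I, N = 0 := by
    refine Matrix.ext (fun a b => ?_)
    obtain ⟨c, hc⟩ := exists_ne a
    have := ((Finite.injective_iff_bijective (f := fun N : M (d + 2) I => N + single c b (N a b))).1
      (fun N N' h => by
        have h1 := congrFun (congrFun h a) b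
        simp only [Matrix.add_apply, single_apply_of_row_ne hc, add_zero] at h1
        simp only [h1] at h
        exact add_right_cancel h)).sum_comp (fun N => N c b)
    simp only [Matrix.add_apply, single_apply_same, sum_add_distrib, add_eq_left] at this
    rw [Matrix.sum_apply, this]; rfl
  simp only [e1]
  rw [← smul_sum, sum_add_distrib, ← map_sum, ← map_sum, e2, map_zero, map_zero, add_zero, sum_const,
    smul_smul]
  ext a b
  refine dv _ ?_ _
  rw [mul_comm]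
  refine mul_dvd_mul_left _ ?_
  rw [card_univ, cardM, ← pow_mul]
  refine dvd_trans ?_ (pow_dvd_pow_of_dvd c1 _)
  rw [← pow_mul]
  refine pow_dvd_pow _ (le_trans ?_ (Nat.mul_le_mul_left _ (by nlinarith : 4 ≤ (d + 2) * (d + 2))))
  omega

def Rp (p : ℕ) (R : Type) [NonUnitalRing R] : NonUnitalSubring R where
  carrier := {x | p • x = 0}
  add_mem' := fun ha hb => by simp_all
  zero_mem' := by simp
  mul_mem' := fun ha _ => by simp only [Set.mem_ofPred_eq] at *; rw [← smul_mul_assoc, ha, zero_mul]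
  neg_mem' := fun ha => by simp_all

lemma loc {p : ℕ} (hp : p.Prime) (d k : ℕ) : ∃ ε : ℕ, ¬ p ∣ ε ∧
    (∀ c, Nat.Coprime c p → c ∣ Fintype.card R → c ∣ ε) ∧
    ((ε • T (d + 2) R k 0 0 = 0 ∧ (p = 2 → d = 0 → Fintype.card R % 4 = 2 →
        ∃ e : R, e ≠ 0 ∧ 2 • e = 0 ∧ e * e ≠ e)) ∨
      (p = 2 ∧ d = 0 ∧ Fintype.card R % 4 = 2 ∧ ∃ e : R, e ≠ 0 ∧ e * e = e ∧
        (∀ r : R, 2 • r = 0 ↔ r = 0 ∨ r = e) ∧ ε • T (d + 2) R k 0 0 =
          if 0 < k ∧ (k % 6 = 4 ∨ k % 6 = 5 ∨ k % 6 = 0) then e else 0)) := by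
  classical
  have := Fact.mk hp
  obtain ⟨a, n, hn, hc⟩ := Nat.exists_eq_pow_mul_and_not_dvd (Fintype.card_ne_zero (α := R)) p hp.ne_one
  have cn : ∀ c, Nat.Coprime c p → c ∣ Fintype.card R → c ∣ n := fun c h1 h2 =>
    (h1.pow_right a).dvd_of_dvd_mul_left (hc ▸ h2)
  by_cases hA : ∀ r : R, (p * n) • r = 0
  swap
  · have ex : ∃ s, ∀ r : R, (p ^ (s + 2) * n) • r = 0 := ⟨a, fun r => by
      rw [pow_add, mul_right_comm, ← hc, mul_nsmul, card_nsmul_eq_zero, smul_zero]⟩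
    have h2 : ¬ ∀ r : R, (p ^ (Nat.find ex + 1) * n) • r = 0 := by
      rcases h : Nat.find ex with _ | s
      · simpa using hA
      · exact Nat.find_min ex (by omega)
    push Not at h2
    obtain ⟨r0, h2⟩ := h2
    refine ⟨n, hn, cn, Or.inl ⟨congrFun (congrFun (caseB hp (Nat.find_spec ex) r0 h2 d k) 0) 0,
      fun h _ h4 => absurd (fun r => ?_) hA⟩⟩
    subst h
    have : a ≤ 1 := by
      by_contra ha
      obtain ⟨b, rfl⟩ : ∃ b, a = b + 2 := ⟨a - 2, by omega⟩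
      rw [pow_add, mul_right_comm] at hc
      omega
    obtain ⟨c, h5⟩ : Fintype.card R ∣ 2 * n :=
      hc ▸ mul_dvd_mul_right (by simpa using pow_dvd_pow 2 this) _
    rw [h5, mul_nsmul, card_nsmul_eq_zero, smul_zero]
  obtain ⟨m, -, hm⟩ := Nat.exists_mul_mod_eq_one_of_coprime (hp.coprime_iff_not_dvd.2 hn).symm hp.one_lt
  obtain ⟨q, hq⟩ : ∃ q, n * m = p * q + 1 := ⟨n * m / p, by rw [← hm, Nat.div_add_mod]⟩
  have f1 : ∀ r : R, p • (n * m) • r = 0 := fun r => by
    rw [smul_smul, ← mul_assoc, mul_nsmul, hA, smul_zero]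
  have f2 : ∀ r : R, p • r = 0 → (n * m) • r = r := fun r h => by
    rw [hq, succ_nsmul, mul_nsmul, h, smul_zero, zero_add]
  let π : R →ₙ+* Rp p R :=
    { toFun := fun r => ⟨(n * m) • r, f1 r⟩
      map_zero' := Subtype.ext (smul_zero _)
      map_add' := fun x y => Subtype.ext (smul_add _ x y)
      map_mul' := fun x y => Subtype.ext (by
        show (n * m) • (x * y) = (n * m) • x * (n * m) • y
        rw [smul_mul_assoc, mul_smul_comm, f2 _ (f1 _)]) }
  have sj : Function.Surjective π := fun y => ⟨y, Subtype.ext (f2 _ y.2)⟩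
  obtain ⟨κ, k1, -⟩ := fiber (β := R) (π : R →+ Rp p R) sj
  obtain ⟨κ', k2, k3⟩ := fiber (β := Rp p R) (G := M (d + 2) R) (H := M (d + 2) (Rp p R))
    (AddMonoidHom.mapMatrix (π : R →+ Rp p R)) (fun B => ⟨B.map Subtype.val, by
      ext a b; exact f2 _ (B a b).2⟩)
  have k4 : κ' = (κ ^ (d + 2)) ^ (d + 2) := by
    refine Nat.eq_of_mul_eq_mul_right Fintype.card_pos (k2.trans ?_)
    rw [cardM, cardM, ← k1, mul_pow, mul_pow]
  have pw : ∀ (A : M (d + 2) R) k, npw (A.map π) k = (npw A k).map π := fun A k => by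
    induction k with
    | zero => rfl
    | succ k ih => rw [npw, npw, ih, Matrix.map_mul]
  have e : (n * m) • T (d + 2) R k 0 0 = κ' • (T (d + 2) (Rp p R) k 0 0 : R) := by
    have := congrArg Subtype.val (k3 (fun B => npw B k 0 0))
    rw [T, T, Matrix.sum_apply, Matrix.sum_apply, smul_sum, ← AddSubmonoidClass.coe_nsmul, ← this,
      AddSubmonoidClass.coe_finset_sum]
    exact sum_congr rfl (fun A _ => (congrArg Subtype.val (congrFun (congrFun (pw A k) 0) 0)).symm)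
  have hR : ∀ r : Rp p R, p • r = 0 := fun r => Subtype.ext r.2
  refine ⟨n * m, by rw [hq]; exact fun h => hp.one_lt.ne' (Nat.dvd_one.1 ((Nat.dvd_add_right ⟨q, rfl⟩).1 h)),
    fun c h1 h2 => (cn c h1 h2).mul_right _, ?_⟩
  by_cases hx : p = 2 ∧ d = 0 ∧ Fintype.card R % 4 = 2 ∧ ∀ e : R, e ≠ 0 → 2 • e = 0 → e * e = e
  · obtain ⟨rfl, rfl, h4, he⟩ := hx
    obtain ⟨x, hx⟩ := exists_prime_addOrderOf_dvd_card (G := R) 2 (by omega)
    have x0 : x ≠ 0 := by rintro rfl; simp at hx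
    have x2 : 2 • x = 0 := hx ▸ addOrderOf_nsmul_eq_zero x
    let _ : Module (ZMod 2) (Rp 2 R) := AddCommGroup.zmodModule hR
    have c2 := Module.card_eq_pow_finrank (K := ZMod 2) (V := Rp 2 R)
    rw [ZMod.card] at c2
    have c3 : Fintype.card (Rp 2 R) ≤ 2 := by
      by_contra ha
      obtain ⟨b, hb⟩ : ∃ b, Module.finrank (ZMod 2) (Rp 2 R) = b + 2 := ⟨_, (Nat.sub_add_cancel (by
        by_contra h
        have := Nat.pow_le_pow_right (n := 2) (by omega) (show Module.finrank (ZMod 2) (Rp 2 R) ≤ 1 by omega)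
        omega)).symm⟩
      rw [c2, hb, pow_add, ← mul_assoc] at k1
      omega
    have c4 : ∀ r : Rp 2 R, r = 0 ∨ r = ⟨x, x2⟩ := fun r => by
      by_contra h
      push Not at h
      have := Fintype.two_lt_card_iff.2 ⟨r, 0, ⟨x, x2⟩, h.1, h.2, fun a => x0 (congrArg Subtype.val a).symm⟩
      omega
    have c5 : Fintype.card (Rp 2 R) = 2 := le_antisymm c3 (Fintype.one_lt_card_iff.2
      ⟨0, ⟨x, x2⟩, fun a => x0 (congrArg Subtype.val a).symm⟩)
    obtain ⟨w, hw⟩ : Odd κ' := by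
      rw [k4]; exact ((Nat.odd_iff.2 (by rw [c5] at k1; omega)).pow).pow
    refine Or.inr ⟨rfl, rfl, h4, x, x0, he x x0 x2, fun r => ⟨fun h => (c4 ⟨r, h⟩).imp
      (congrArg Subtype.val) (congrArg Subtype.val), by rintro (rfl | rfl); exacts [smul_zero _, x2]⟩, ?_⟩
    rw [e, exc hR ⟨x, x2⟩ (fun a => x0 (congrArg Subtype.val a)) (Subtype.ext (he x x0 x2)) c4, hw]
    split_ifs
    · rw [succ_nsmul, mul_nsmul]; simp [x2]
    · simp
  · refine Or.inl ⟨?_, fun h1 h2 h3 => by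
      by_contra h
      push Not at h
      exact hx ⟨h1, h2, h3, h⟩⟩
    rcases expp hp hR d k with h | ⟨rfl, rfl, x, x0, xx, h⟩
    · rw [e, h]; simp
    · have c5 : Fintype.card (Rp 2 R) = 2 := by
        rw [← card_univ, show (univ : Finset (Rp 2 R)) = {0, x} by ext r; simpa using h r, card_pair x0.symm]
      obtain ⟨w, hw⟩ : Even κ' := by
        rw [k4]
        refine Nat.even_pow.2 ⟨Nat.even_pow.2 ⟨Nat.even_iff.2 ?_, by omega⟩, by omega⟩
        by_contra ho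
        refine hx ⟨rfl, rfl, by rw [c5] at k1; omega, fun r r0 r2 => ?_⟩
        rcases h ⟨r, r2⟩ with a | a
        · exact absurd (congrArg Subtype.val a) r0
        · rw [← a] at xx; exact congrArg Subtype.val xx
      rw [e, hw, ← two_mul, mul_nsmul, (T 2 (Rp 2 R) k 0 0).2, smul_zero]

omit [Fintype R] in
lemma crit [Finite R] (z : R) (h : ∀ p : ℕ, p.Prime → ∃ ε : ℕ, ¬ p ∣ ε ∧ ε • z = 0) : z = 0 := by
  by_contra hz
  obtain ⟨ε, h1, h2⟩ := h _ (Nat.minFac_prime (n := addOrderOf z) (by simpa using hz))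
  exact h1 ((Nat.minFac_dvd _).trans (addOrderOf_dvd_of_nsmul_eq_zero h2))

theorem result (d k : ℕ) (hd : 1 < d) (hk : 1 ≤ k) (R : Type) [NonUnitalRing R] [Fintype R] :
    (¬ Cond k d R → S k d R = 0) ∧
    (Cond k d R → ∀ e : R, e ≠ 0 → 2 • e = 0 → S k d R = Matrix.diagonal (fun _ => e)) := by
  obtain ⟨d, rfl⟩ : ∃ c, d = c + 2 := ⟨d - 2, by omega⟩
  obtain ⟨k, rfl⟩ : ∃ c, k = c + 1 := ⟨k - 1, by omega⟩
  rw [S_eq, T_eq]
  refine ⟨fun h => ?_, fun h e e0 e2 => ?_⟩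
  · rw [crit (T (d + 2) R k 0 0) (fun p hp => ?_), diagonal_zero]
    obtain ⟨ε, h1, -, h2 | ⟨-, rfl, h4, e, e0, ee, h5, h6⟩⟩ := loc (R := R) hp d k
    · exact ⟨ε, h1, h2.1⟩
    · refine ⟨ε, h1, h6.trans (if_neg (fun hc => h ⟨rfl, ⟨h4, by omega, by omega⟩, fun r r0 r2 => ?_⟩))⟩
      rw [((h5 r).1 r2).resolve_left r0, ee]
  · obtain ⟨h0, ⟨h4, h7, h8⟩, h9⟩ := h
    rw [sub_eq_zero.1 (crit (T (d + 2) R k 0 0 - e) (fun p hp => ?_))]
    obtain ⟨ε, h1, h3, h2 | ⟨rfl, -, -, x, x0, xx, h5, h6⟩⟩ := loc (R := R) hp d k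
    · refine ⟨ε, h1, ?_⟩
      by_cases hp2 : p = 2
      · obtain ⟨x, a, b, c⟩ := h2.2 hp2 (by omega) h4
        exact absurd (h9 x a b) c
      · obtain ⟨w, rfl⟩ := h3 2 ((Nat.coprime_primes Nat.prime_two hp).2 (Ne.symm hp2)) (by omega)
        rw [smul_sub, h2.1, mul_nsmul, e2, smul_zero, sub_zero]
    · obtain ⟨w, rfl⟩ : Odd ε := Nat.odd_iff.2 (by omega)
      refine ⟨_, h1, ?_⟩
      rw [smul_sub, h6, if_pos (by omega), succ_nsmul, mul_nsmul, e2, smul_zero, zero_add,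
        ((h5 e).1 e2).resolve_left e0, sub_self]

end Pool.Agent.Results.MP_0bd9b3_al.PowerSums
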